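import Pool.Agent.COSB.StmtsE
import Pool.Agent.Helper50_COS.MCH
import Pool.Agent.Helper13_COS.WRA

/-!
# Squad COSB, row TME: tensor isomorphism over a finite field, the machine part
-/

set_option autoImplicit false

namespace Pool.Agent.COSB.H94E

open Turing Computability Pool.Agent.UT.Num Pool.Agent.H2XG Pool.Agent.PAR Pool.Agent.COS

/-! ### Words of blocks -/

/-- a word of blocks -/
def fl (m : ℕ) (v : Fin m → Word) : Word := (List.finRange m).flatMap v

theorem fl_succ (m : ℕ) (v : Fin (m + 1) → Word) :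
    fl (m + 1) v = v 0 ++ fl m (fun r => v r.succ) := by
  unfold fl
  rw [List.finRange_succ, List.flatMap_cons, List.flatMap_map]

theorem len_fl {l : ℕ} (m : ℕ) (v : Fin m → Word) (hv : ∀ r, (v r).length = l) :
    (fl m v).length = m * l := by
  induction m with
  | zero => simp [fl]
  | succ m ih =>
    rw [fl_succ, List.length_append, ih _ (fun r => hv r.succ), hv 0]
    ring

theorem blW_fl {l : ℕ} (m : ℕ) (v : Fin m → Word) (hv : ∀ r, (v r).length = l) (u : Word) (t : ℕ)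
    (ht : t < m) : blW l (fl m v ++ u) t = v ⟨t, ht⟩ := by
  induction m generalizing t with
  | zero => omega
  | succ m ih =>
    unfold blW
    rw [fl_succ, List.append_assoc]
    rcases t with _ | t
    · rw [Nat.zero_mul, List.drop_zero, List.take_left' (hv 0)]
      rfl
    · have h1 : (t + 1) * l = (v 0).length + t * l := by rw [hv 0]; ring
      rw [h1, ← List.drop_drop, List.drop_left]
      exact ih _ (fun r => hv r.succ) t (by omega)

theorem blW_fl' {l : ℕ} (m : ℕ) (v : Fin m → Word) (hv : ∀ r, (v r).length = l) (t : ℕ)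
    (ht : t < m) : blW l (fl m v) t = v ⟨t, ht⟩ := by
  have h := blW_fl m v hv [] t ht
  rwa [List.append_nil] at h

theorem blW_append {l o : ℕ} (u w : Word) (t : ℕ) (hu : u.length = o * l) :
    blW l (u ++ w) (o + t) = blW l w t := by
  unfold blW
  have h1 : (o + t) * l = u.length + t * l := by rw [hu]; ring
  rw [h1, ← List.drop_drop, List.drop_left]

/-- words are the words of their blocks -/
theorem eq_fl (l m : ℕ) (w : Word) (o : ℕ) (h : (o + m) * l ≤ w.length) :
    (w.drop (o * l)).take (m * l) = fl m (fun r => blW l w (o + r)) := by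
  induction m generalizing o with
  | zero => simp [fl]
  | succ m ih =>
    have h1 : (m + 1) * l = l + m * l := by ring
    have h2 : o * l + l = (o + 1) * l := by ring
    have h3 : (o + 1 + m) * l ≤ w.length := by
      have : o + 1 + m = o + (m + 1) := by ring
      rw [this]; exact h
    rw [h1, List.take_add, List.drop_drop, h2, ih (o + 1) h3, fl_succ]
    congr 1
    congr 1
    funext r
    have h6 : o + 1 + (r : ℕ) = o + (r.succ : ℕ) := by rw [Fin.val_succ]; ring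
    rw [h6]

/-! ### Codes -/

section code

variable {E : Type} [Field E] (c : E → Word)

open Classical in
/-- the element with a given code word, `0` if there is none -/
noncomputable def dE (w : Word) : E := if h : ∃ e, c e = w then h.choose else 0

open Classical in
/-- the word is a code word -/
noncomputable def okC (w : Word) : Bool := decide (∃ e, c e = w)

open Classical in
theorem okC_iff {c : E → Word} {w : Word} : okC c w = true ↔ ∃ e, c e = w := by
  unfold okC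
  rw [decide_eq_true_iff]

theorem dE_c {c : E → Word} (hc : Function.Injective c) (e : E) : dE c (c e) = e := by
  have h : ∃ e', c e' = c e := ⟨e, rfl⟩
  unfold dE
  rw [dif_pos h]
  exact hc h.choose_spec

theorem c_dE {c : E → Word} {w : Word} (h : okC c w = true) : c (dE c w) = w := by
  rw [okC_iff] at h
  unfold dE
  rw [dif_pos h]
  exact h.choose_spec

/-- the element in the block `t` -/
noncomputable def bE (l : ℕ) (w : Word) (t : ℕ) : E := dE c (blW l w t)

end code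

/-! ### The predicate -/

section pred

variable {E : Type} [Field E] (cd : E → Word) (l N n : ℕ) (x y : Word)

/-- a product of the sum -/
noncomputable def trm (i j k a b c : ℕ) : E :=
  bE cd l y (i * N + a) * bE cd l y ((n + j) * N + (n + b)) *
    bE cd l y ((2 * n + k) * N + (2 * n + c)) * bE cd l x ((a * n + b) * n + c)

noncomputable def c1 (i j k a b : ℕ) : E := ∑ c ∈ Finset.range n, trm cd l N n x y i j k a b c

noncomputable def c2 (i j k a : ℕ) : E := ∑ b ∈ Finset.range n, c1 cd l N n x y i j k a b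

noncomputable def c3 (i j k : ℕ) : E := ∑ a ∈ Finset.range n, c2 cd l N n x y i j k a

open Classical in
noncomputable def eqE (u v : E) : Bool := decide (u = v)

open Classical in
omit [Field E] in
theorem eqE_iff {u v : E} : eqE u v = true ↔ u = v := by
  unfold eqE
  rw [decide_eq_true_iff]

noncomputable def okE (i j k : ℕ) : Bool :=
  eqE (c3 cd l N n x y i j k) (bE cd l x (n ^ 3 + ((i * n + j) * n + k)))

open Classical in
noncomputable def zr (w : Word) : Bool := decide (dE cd w = 0)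

open Classical in
theorem zr_iff {w : Word} : zr cd w = true ↔ dE cd w = 0 := by
  unfold zr
  rw [decide_eq_true_iff]

noncomputable def okB (i j : ℕ) : Bool :=
  decide (COS.blk n i = COS.blk n j) || zr cd (blW l y (i * N + j))

noncomputable def okB1 (i : ℕ) : Bool := decide (∀ j < N, okB cd l N n y i j = true)

noncomputable def okE1 (i j : ℕ) : Bool := decide (∀ k < n, okE cd l N n x y i j k = true)

noncomputable def okE2 (i : ℕ) : Bool := decide (∀ j < n, okE1 cd l N n x y i j = true)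

noncomputable def okX : Bool := decide (∀ t < 2 * n ^ 3, okC cd (blW l x t) = true)

noncomputable def okN : Bool :=
  decide (x.length = 2 * n ^ 3 * l) && okX cd l n x && decide (∀ i < N, okB1 cd l N n y i = true) &&
    decide (∀ i < n, okE2 cd l N n x y i = true)

noncomputable def tmeV : Bool :=
  decide (∃ n < x.length + 1, okN cd l (3 * x.length) n x y = true)

end pred

/-! ### The machine -/

section machine

variable (hT : TblStmt) {E : Type} [Field E] [Fintype E] [DecidableEq E] {cd : E → Word}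
  {m l : ℕ} {N n i j k a b c : (Fin m → List K) → ℕ} {x y : (Fin m → List K) → Word}

theorem blF' {t : (Fin m → List K) → ℕ} (hx : FPW m x) (ht : FPN m t) :
    FPW m (fun ρ => blW l (x ρ) (t ρ)) := H50.blF (FPN.const l) hx ht

theorem len_blW (w : Word) (t : ℕ) : (blW l w t).length ≤ l := by
  unfold blW
  rw [List.length_take]
  exact min_le_left _ _

include hT

theorem bEF {t : (Fin m → List K) → ℕ} (hx : FPW m x) (ht : FPN m t) :
    FPW m (fun ρ => cF E (bE cd l (x ρ) (t ρ))) :=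
  hT.1 m l (fun u => cF E (dE cd u)) (fun ρ => blW l (x ρ) (t ρ)) (blF' hx ht)
    fun _ => len_blW _ _

theorem mulF {u v : (Fin m → List K) → E} (hu : FPW m (fun ρ => cF E (u ρ)))
    (hv : FPW m (fun ρ => cF E (v ρ))) : FPW m (fun ρ => cF E (u ρ * v ρ)) :=
  hT.2.2.2.1 E m (fun u v => u * v) u v hu hv

theorem trmF (hN : FPN m N) (hn : FPN m n) (hx : FPW m x) (hy : FPW m y) (hi : FPN m i)
    (hj : FPN m j) (hk : FPN m k) (ha : FPN m a) (hb : FPN m b) (hc : FPN m c) :
    FPW m (fun ρ => cF E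
      (trm cd l (N ρ) (n ρ) (x ρ) (y ρ) (i ρ) (j ρ) (k ρ) (a ρ) (b ρ) (c ρ))) := by
  have h2 := FPN.mul (FPN.const 2) hn
  exact mulF hT (mulF hT (mulF hT (bEF hT hy (FPN.add (FPN.mul hi hN) ha))
    (bEF hT hy (FPN.add (FPN.mul (FPN.add hn hj) hN) (FPN.add hn hb))))
    (bEF hT hy (FPN.add (FPN.mul (FPN.add h2 hk) hN) (FPN.add h2 hc))))
    (bEF hT hx (FPN.add (FPN.mul (FPN.add (FPN.mul ha hn) hb) hn) hc))

theorem c1F (hN : FPN m N) (hn : FPN m n) (hx : FPW m x) (hy : FPW m y) (hi : FPN m i)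
    (hj : FPN m j) (hk : FPN m k) (ha : FPN m a) (hb : FPN m b) :
    FPW m (fun ρ => cF E (c1 cd l (N ρ) (n ρ) (x ρ) (y ρ) (i ρ) (j ρ) (k ρ) (a ρ) (b ρ))) :=
  hT.2.2.2.2.2 E m n
    (fun c ρ => trm cd l (N ρ) (n ρ) (x ρ) (y ρ) (i ρ) (j ρ) (k ρ) (a ρ) (b ρ) c) hn
    (trmF hT (FPN.weak hN) (FPN.weak hn) (FPW.weak hx) (FPW.weak hy) (FPN.weak hi) (FPN.weak hj)
      (FPN.weak hk) (FPN.weak ha) (FPN.weak hb) FPN.v0)

theorem c2F (hN : FPN m N) (hn : FPN m n) (hx : FPW m x) (hy : FPW m y) (hi : FPN m i)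
    (hj : FPN m j) (hk : FPN m k) (ha : FPN m a) :
    FPW m (fun ρ => cF E (c2 cd l (N ρ) (n ρ) (x ρ) (y ρ) (i ρ) (j ρ) (k ρ) (a ρ))) :=
  hT.2.2.2.2.2 E m n
    (fun b ρ => c1 cd l (N ρ) (n ρ) (x ρ) (y ρ) (i ρ) (j ρ) (k ρ) (a ρ) b) hn
    (c1F hT (FPN.weak hN) (FPN.weak hn) (FPW.weak hx) (FPW.weak hy) (FPN.weak hi) (FPN.weak hj)
      (FPN.weak hk) (FPN.weak ha) FPN.v0)

theorem c3F (hN : FPN m N) (hn : FPN m n) (hx : FPW m x) (hy : FPW m y) (hi : FPN m i)
    (hj : FPN m j) (hk : FPN m k) :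
    FPW m (fun ρ => cF E (c3 cd l (N ρ) (n ρ) (x ρ) (y ρ) (i ρ) (j ρ) (k ρ))) :=
  hT.2.2.2.2.2 E m n
    (fun a ρ => c2 cd l (N ρ) (n ρ) (x ρ) (y ρ) (i ρ) (j ρ) (k ρ) a) hn
    (c2F hT (FPN.weak hN) (FPN.weak hn) (FPW.weak hx) (FPW.weak hy) (FPN.weak hi) (FPN.weak hj)
      (FPN.weak hk) FPN.v0)

theorem okEF (hN : FPN m N) (hn : FPN m n) (hx : FPW m x) (hy : FPW m y) (hi : FPN m i)
    (hj : FPN m j) (hk : FPN m k) :
    FPB m (fun ρ => okE cd l (N ρ) (n ρ) (x ρ) (y ρ) (i ρ) (j ρ) (k ρ)) :=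
  hT.2.2.2.2.1 E m eqE _ _ (c3F hT hN hn hx hy hi hj hk)
    (bEF hT hx (FPN.add (FPN.pow hn 3) (FPN.add (FPN.mul (FPN.add (FPN.mul hi hn) hj) hn) hk)))

omit hT in
theorem blkF (hn : FPN m n) (hi : FPN m i) : FPN m (fun ρ => COS.blk (n ρ) (i ρ)) := by
  refine FPN.congr (FPN.ite (FPB.ltN hi hn) (FPN.const 0)
    (FPN.ite (FPB.ltN hi (FPN.mul (FPN.const 2) hn)) (FPN.const 1)
      (FPN.ite (FPB.ltN hi (FPN.mul (FPN.const 3) hn)) (FPN.const 2) (FPN.const 3)))) fun ρ => ?_
  unfold COS.blk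
  simp only [decide_eq_true_eq]

theorem okBF (hN : FPN m N) (hn : FPN m n) (hy : FPW m y) (hi : FPN m i) (hj : FPN m j) :
    FPB m (fun ρ => okB cd l (N ρ) (n ρ) (y ρ) (i ρ) (j ρ)) :=
  FPB.or (FPB.eqN (blkF hn hi) (blkF hn hj))
    (hT.2.1 m l (zr cd) (fun ρ => blW l (y ρ) (i ρ * N ρ + j ρ))
      (blF' hy (FPN.add (FPN.mul hi hN) hj)) fun _ => len_blW _ _)

theorem okB1F (hN : FPN m N) (hn : FPN m n) (hy : FPW m y) (hi : FPN m i) :
    FPB m (fun ρ => okB1 cd l (N ρ) (n ρ) (y ρ) (i ρ)) :=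
  FPB.all hN (b := fun j ρ => okB cd l (N ρ) (n ρ) (y ρ) (i ρ) j)
    (okBF hT (FPN.weak hN) (FPN.weak hn) (FPW.weak hy) (FPN.weak hi) FPN.v0)

theorem okE1F (hN : FPN m N) (hn : FPN m n) (hx : FPW m x) (hy : FPW m y) (hi : FPN m i)
    (hj : FPN m j) : FPB m (fun ρ => okE1 cd l (N ρ) (n ρ) (x ρ) (y ρ) (i ρ) (j ρ)) :=
  FPB.all hn (b := fun k ρ => okE cd l (N ρ) (n ρ) (x ρ) (y ρ) (i ρ) (j ρ) k)
    (okEF hT (FPN.weak hN) (FPN.weak hn) (FPW.weak hx) (FPW.weak hy) (FPN.weak hi) (FPN.weak hj)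
      FPN.v0)

theorem okE2F (hN : FPN m N) (hn : FPN m n) (hx : FPW m x) (hy : FPW m y) (hi : FPN m i) :
    FPB m (fun ρ => okE2 cd l (N ρ) (n ρ) (x ρ) (y ρ) (i ρ)) :=
  FPB.all hn (b := fun j ρ => okE1 cd l (N ρ) (n ρ) (x ρ) (y ρ) (i ρ) j)
    (okE1F hT (FPN.weak hN) (FPN.weak hn) (FPW.weak hx) (FPW.weak hy) (FPN.weak hi) FPN.v0)

theorem okXF (hn : FPN m n) (hx : FPW m x) : FPB m (fun ρ => okX cd l (n ρ) (x ρ)) :=
  FPB.all (FPN.mul (FPN.const 2) (FPN.pow hn 3)) (b := fun t ρ => okC cd (blW l (x ρ) t))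
    (hT.2.1 (m + 1) l (okC cd) _ (blF' (FPW.weak hx) FPN.v0) fun _ => len_blW _ _)

theorem okNF (hN : FPN m N) (hn : FPN m n) (hx : FPW m x) (hy : FPW m y) :
    FPB m (fun ρ => okN cd l (N ρ) (n ρ) (x ρ) (y ρ)) :=
  FPB.and (FPB.and (FPB.and (FPB.eqN (FPW.len hx)
    (FPN.mul (FPN.mul (FPN.const 2) (FPN.pow hn 3)) (FPN.const l))) (okXF hT hn hx))
    (FPB.all hN (b := fun i ρ => okB1 cd l (N ρ) (n ρ) (y ρ) i)
      (okB1F hT (FPN.weak hN) (FPN.weak hn) (FPW.weak hy) FPN.v0)))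
    (FPB.all hn (b := fun i ρ => okE2 cd l (N ρ) (n ρ) (x ρ) (y ρ) i)
      (okE2F hT (FPN.weak hN) (FPN.weak hn) (FPW.weak hx) (FPW.weak hy) FPN.v0))

theorem tmeF (hx : FPW m x) (hy : FPW m y) : FPB m (fun ρ => tmeV cd l (x ρ) (y ρ)) :=
  FPB.exists (FPN.add (FPW.len hx) (FPN.const 1))
    (b := fun n ρ => okN cd l (3 * (x ρ).length) n (x ρ) (y ρ))
    (okNF hT (FPN.mul (FPN.const 3) (FPW.len (FPW.weak hx))) FPN.v0 (FPW.weak hx) (FPW.weak hy))

end machine

/-! ### Correctness -/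

section corr

variable {E : Type} [Field E] {c : E → Word} {l : ℕ}

theorem nv_enc (hc : Function.Injective c) (hl : ∀ e, (c e).length = l) {N : ℕ}
    (M : Matrix (Fin N) (Fin N) E) {i j : ℕ} (hi : i < N) (hj : j < N) :
    bE c l (encE c M) (i * N + j) = M ⟨i, hi⟩ ⟨j, hj⟩ := by
  have h := COS.H13.pos_lt hi hj
  have h1 : Fin.divNat (⟨i * N + j, h⟩ : Fin (N * N)) = ⟨i, hi⟩ := Fin.ext (COS.H13.div_eq hj)
  have h2 : Fin.modNat (⟨i * N + j, h⟩ : Fin (N * N)) = ⟨j, hj⟩ := Fin.ext (COS.H13.mod_eq hj)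
  have h3 : blW l (encE c M) (i * N + j) = c (M ⟨i, hi⟩ ⟨j, hj⟩) := by
    refine (blW_fl' (N * N) (fun r => c (M r.divNat r.modNat)) (fun r => hl _) _ h).trans ?_
    rw [h1, h2]
  unfold bE
  rw [h3, dE_c hc]

theorem pos3 {n : ℕ} (a b c : Fin n) : ((a : ℕ) * n + b) * n + c < n * n * n := by
  have h1 := COS.H13.pos_lt a.2 b.2
  calc ((a : ℕ) * n + b) * n + c < ((a : ℕ) * n + b) * n + n := by have := c.2; omega
    _ = ((a : ℕ) * n + b + 1) * n := by ring
    _ ≤ n * n * n := Nat.mul_le_mul_right n h1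

theorem idx3 {n : ℕ} (a b c : Fin n) (h : ((a : ℕ) * n + b) * n + c < n * n * n)
    (T : Fin n → Fin n → Fin n → E) :
    T (Fin.divNat (Fin.divNat (⟨((a : ℕ) * n + b) * n + c, h⟩ : Fin (n * n * n))))
      (Fin.modNat (Fin.divNat (⟨((a : ℕ) * n + b) * n + c, h⟩ : Fin (n * n * n))))
      (Fin.modNat (⟨((a : ℕ) * n + b) * n + c, h⟩ : Fin (n * n * n))) = T a b c := by
  have h1 : Fin.divNat (⟨((a : ℕ) * n + b) * n + c, h⟩ : Fin (n * n * n)) =
      ⟨(a : ℕ) * n + b, COS.H13.pos_lt a.2 b.2⟩ := Fin.ext (COS.H13.div_eq c.2)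
  have h2 : Fin.modNat (⟨((a : ℕ) * n + b) * n + c, h⟩ : Fin (n * n * n)) = c :=
    Fin.ext (COS.H13.mod_eq c.2)
  have h3 : Fin.divNat (⟨(a : ℕ) * n + b, COS.H13.pos_lt a.2 b.2⟩ : Fin (n * n)) = a :=
    Fin.ext (COS.H13.div_eq b.2)
  have h4 : Fin.modNat (⟨(a : ℕ) * n + b, COS.H13.pos_lt a.2 b.2⟩ : Fin (n * n)) = b :=
    Fin.ext (COS.H13.mod_eq b.2)
  rw [h2, h1, h3, h4]

theorem ecod_fl {n : ℕ} (T : Fin n → Fin n → Fin n → E) : ecod c T = fl (n * n * n)
    (fun r => c (T r.divNat.divNat r.divNat.modNat r.modNat)) := rfl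

theorem len_ecod (hl : ∀ e, (c e).length = l) {n : ℕ} (T : Fin n → Fin n → Fin n → E) :
    (ecod c T).length = n ^ 3 * l := by
  rw [ecod_fl, len_fl _ _ fun r => hl _]
  ring

theorem bl_fst (hl : ∀ e, (c e).length = l) {n : ℕ} (T T' : Fin n → Fin n → Fin n → E) {t : ℕ}
    (ht : t < n * n * n) : blW l (ecod c T ++ ecod c T') t =
      c (T (Fin.divNat (Fin.divNat (⟨t, ht⟩ : Fin (n * n * n))))
        (Fin.modNat (Fin.divNat (⟨t, ht⟩ : Fin (n * n * n))))
        (Fin.modNat (⟨t, ht⟩ : Fin (n * n * n)))) := by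
  rw [ecod_fl T, blW_fl _ _ (fun r => hl _) _ _ ht]

theorem bl_snd (hl : ∀ e, (c e).length = l) {n : ℕ} (T T' : Fin n → Fin n → Fin n → E) {t : ℕ}
    (ht : t < n * n * n) : blW l (ecod c T ++ ecod c T') (n ^ 3 + t) =
      c (T' (Fin.divNat (Fin.divNat (⟨t, ht⟩ : Fin (n * n * n))))
        (Fin.modNat (Fin.divNat (⟨t, ht⟩ : Fin (n * n * n))))
        (Fin.modNat (⟨t, ht⟩ : Fin (n * n * n)))) := by
  rw [blW_append _ _ _ (len_ecod hl T), ecod_fl T', blW_fl' _ _ (fun r => hl _) _ ht]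

theorem l_pos (hc : Function.Injective c) (hl : ∀ e, (c e).length = l) : 0 < l := by
  by_contra h
  have h0 : l = 0 := by omega
  have h1 : c 0 = c 1 := by
    rw [List.eq_nil_of_length_eq_zero ((hl 0).trans h0),
      List.eq_nil_of_length_eq_zero ((hl 1).trans h0)]
  exact zero_ne_one (hc h1)

theorem len_x (hl : ∀ e, (c e).length = l) {n : ℕ} {T T' : Fin n → Fin n → Fin n → E} :
    (ecod c T ++ ecod c T').length = 2 * n ^ 3 * l := by
  rw [List.length_append, len_ecod hl, len_ecod hl]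
  ring

theorem n_le (h0 : 0 < l) {n k : ℕ} (h : k = 2 * n ^ 3 * l) : n ≤ k := by
  have h1 : n ≤ n ^ 3 := Nat.le_self_pow (by norm_num) n
  have h2 : 2 * n ^ 3 * 1 ≤ 2 * n ^ 3 * l := Nat.mul_le_mul_left _ h0
  omega

theorem okE_iff (hc : Function.Injective c) (hl : ∀ e, (c e).length = l) {n N : ℕ}
    (hN : 3 * n ≤ N) (T T' : Fin n → Fin n → Fin n → E) (M : Matrix (Fin N) (Fin N) E)
    (i j k : Fin n) :
    okE c l N n (ecod c T ++ ecod c T') (encE c M) i j k = true ↔
      ∑ a : Fin n, ∑ b : Fin n, ∑ c : Fin n,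
        enR M i a * enR M (n + j) (n + b) * enR M (2 * n + k) (2 * n + c) * T a b c =
            T' i j k := by
  have hs : ∑ a : Fin n, ∑ b : Fin n, ∑ c : Fin n,
        enR M i a * enR M (n + j) (n + b) * enR M (2 * n + k) (2 * n + c) * T a b c =
      c3 c l N n (ecod c T ++ ecod c T') (encE c M) i j k := by
    unfold c3 c2 c1
    rw [Finset.sum_range]
    refine Finset.sum_congr rfl fun a _ => ?_
    rw [Finset.sum_range]
    refine Finset.sum_congr rfl fun b _ => ?_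
    rw [Finset.sum_range]
    refine Finset.sum_congr rfl fun d _ => ?_
    have hi := i.2
    have hj := j.2
    have hk := k.2
    have ha := a.2
    have hb := b.2
    have hd := d.2
    have hx : bE c l (ecod c T ++ ecod c T') (((a : ℕ) * n + b) * n + d) = T a b d := by
      unfold bE
      rw [bl_fst hl T T' (pos3 a b d), idx3 a b d (pos3 a b d) T, dE_c hc]
    unfold trm
    rw [nv_enc hc hl M (by omega : (i : ℕ) < N) (by omega : (a : ℕ) < N),
      nv_enc hc hl M (by omega : n + (j : ℕ) < N) (by omega : n + (b : ℕ) < N),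
      nv_enc hc hl M (by omega : 2 * n + (k : ℕ) < N) (by omega : 2 * n + (d : ℕ) < N), hx]
    unfold enR
    rw [dif_pos ⟨by omega, by omega⟩, dif_pos ⟨by omega, by omega⟩, dif_pos ⟨by omega, by omega⟩]
  have hy : bE c l (ecod c T ++ ecod c T') (n ^ 3 + (((i : ℕ) * n + j) * n + k)) = T' i j k := by
    unfold bE
    rw [bl_snd hl T T' (pos3 i j k), idx3 i j k (pos3 i j k) T', dE_c hc]
  rw [hs]
  unfold okE
  rw [eqE_iff, hy]

theorem okN_iff (hc : Function.Injective c) (hl : ∀ e, (c e).length = l) {n N : ℕ}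
    (hN : 3 * n ≤ N) (T T' : Fin n → Fin n → Fin n → E) (M : Matrix (Fin N) (Fin N) E) :
    okN c l N n (ecod c T ++ ecod c T') (encE c M) = true ↔ BlkSolR n N T T' M := by
  have hX : okX c l n (ecod c T ++ ecod c T') = true := by
    unfold okX
    rw [decide_eq_true_iff]
    intro t ht
    rw [okC_iff]
    have h3 : n ^ 3 = n * n * n := by ring
    by_cases h : t < n * n * n
    · rw [bl_fst hl T T' h]
      exact ⟨_, rfl⟩
    · obtain ⟨u, rfl⟩ : ∃ u, t = n ^ 3 + u := ⟨t - n ^ 3, by omega⟩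
      rw [bl_snd hl T T' (by omega : u < n * n * n)]
      exact ⟨_, rfl⟩
  unfold okN okE2 okE1 okB1 BlkSolR
  simp only [Bool.and_eq_true, decide_eq_true_iff, hX, len_x hl, true_and]
  have hE : (∀ i < n, ∀ j < n, ∀ k < n, okE c l N n (ecod c T ++ ecod c T')
      (encE c M) i j k = true) ↔ ∀ i j k : Fin n, ∑ a : Fin n, ∑ b : Fin n, ∑ c : Fin n,
        enR M i a * enR M (n + j) (n + b) * enR M (2 * n + k) (2 * n + c) * T a b c =
            T' i j k := by
    constructor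
    · intro h i j k
      exact (okE_iff hc hl hN T T' M i j k).1 (h i i.2 j j.2 k k.2)
    · intro h i hi j hj k hk
      exact (okE_iff hc hl hN T T' M ⟨i, hi⟩ ⟨j, hj⟩ ⟨k, hk⟩).2 (h ⟨i, hi⟩ ⟨j, hj⟩ ⟨k, hk⟩)
  have hB : (∀ i < N, ∀ j < N, okB c l N n (encE c M) i j = true) ↔
      ∀ i j : Fin N, COS.blk n i ≠ COS.blk n j → M i j = 0 := by
    have h0 : ∀ i j : Fin N, (okB c l N n (encE c M) i j = true ↔
        (COS.blk n i ≠ COS.blk n j → M i j = 0)) := by
      intro i j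
      have h1 : dE c (blW l (encE c M) ((i : ℕ) * N + j)) = M i j := nv_enc hc hl M i.2 j.2
      unfold okB
      rw [Bool.or_eq_true, decide_eq_true_iff, zr_iff, h1]
      exact ⟨fun h h' => h.resolve_left h', fun h => by
        by_cases h' : COS.blk n i = COS.blk n j
        · exact Or.inl h'
        · exact Or.inr (h h')⟩
    constructor
    · intro h i j
      exact (h0 i j).1 (h i i.2 j j.2)
    · intro h i hi j hj
      exact (h0 ⟨i, hi⟩ ⟨j, hj⟩).2 (h ⟨i, hi⟩ ⟨j, hj⟩)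
  exact and_congr hB hE

theorem ex_ecod {n N : ℕ} {x y : Word} (h : okN c l N n x y = true) :
    ∃ T T' : Fin n → Fin n → Fin n → E, x = ecod c T ++ ecod c T' := by
  unfold okN at h
  rw [Bool.and_eq_true, Bool.and_eq_true, Bool.and_eq_true, decide_eq_true_iff] at h
  have hlen := h.1.1.1
  have hX := h.1.1.2
  unfold okX at hX
  rw [decide_eq_true_iff] at hX
  have h3 : n ^ 3 = n * n * n := by ring
  have hval : ∀ o, o + n * n * n ≤ 2 * n ^ 3 → fl (n * n * n)
      (fun r => blW l x (o + r)) = ecod c (n := n)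
        (fun a b d => bE c l x (o + (((a : ℕ) * n + b) * n + d))) := by
    intro o ho
    rw [ecod_fl]
    congr 1
    funext r
    have h4 : ((r.divNat.divNat : ℕ) * n + (r.divNat.modNat : ℕ)) * n + (r.modNat : ℕ) = r := by
      show ((r : ℕ) / n / n * n + (r : ℕ) / n % n) * n + (r : ℕ) % n = r
      rw [Nat.div_add_mod', Nat.div_add_mod']
    rw [h4]
    unfold bE
    rw [c_dE (hX _ (by have := r.2; omega))]
  have e1 := eq_fl l (n * n * n) x 0 (by
    rw [hlen]
    exact Nat.mul_le_mul_right _ (by omega))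
  have e2 := eq_fl l (n * n * n) x (n * n * n) (by
    rw [hlen]
    exact Nat.mul_le_mul_right _ (by omega))
  refine ⟨fun a b d => bE c l x (0 + (((a : ℕ) * n + b) * n + d)),
    fun a b d => bE c l x (n * n * n + (((a : ℕ) * n + b) * n + d)), ?_⟩
  rw [← hval 0 (by omega), ← hval (n * n * n) (by omega), ← e1, ← e2, Nat.zero_mul,
    List.drop_zero]
  have h5 : (x.drop (n * n * n * l)).take (n * n * n * l) = x.drop (n * n * n * l) := by
    apply List.take_of_length_le
    rw [List.length_drop, hlen, h3]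
    have : 2 * (n * n * n) * l = n * n * n * l + n * n * n * l := by ring
    omega
  rw [h5, List.take_append_drop]

end corr

/-- **TME** -/
theorem tme (hT : TblStmt) : TmeStmt := by
  intro E _ _ c l hc hl
  classical
  have : Fintype E := Fintype.ofFinite E
  refine ⟨fun z => tmeV c l z.1 z.2, polyPair_of' fun _ _ _ hA hB => tmeF hT hA hB, ?_⟩
  intro x M
  show tmeV c l x (encE c M) = true ↔ _
  unfold tmeV
  rw [decide_eq_true_iff]
  constructor
  · rintro ⟨n, hn, h⟩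
    obtain ⟨T, T', hT'⟩ := ex_ecod h
    subst hT'
    exact ⟨n, T, T', rfl, (okN_iff hc hl (by omega) T T' M).1 h⟩
  · rintro ⟨n, T, T', hT', h⟩
    subst hT'
    have hn : n ≤ (ecod c T ++ ecod c T').length := n_le (l_pos hc hl) (len_x hl)
    exact ⟨n, by omega, (okN_iff hc hl (by omega) T T' M).2 h⟩

end Pool.Agent.COSB.H94E
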