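import Pool.Agent.COSB.StmtsT
import Pool.Agent.Helper50_COS.MCH
import Pool.Agent.Helper13_COS.WRA

/-!
# Squad COSB, row TMP: tensor isomorphism over `Z / p`, the machine part
-/

set_option autoImplicit false

namespace Pool.Agent.COSB.H94

open Turing Computability Pool.Agent.UT.Num Pool.Agent.H2XG Pool.Agent.PAR Pool.Agent.COS

/-! ### Binary numbers in blocks of words -/

/-- the number with the `b` lowest binary digits in the block `t` (blocks of length `B`) of `w` -/
def nm (B : ℕ) : ℕ → Word → ℕ → ℕ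
  | 0, _, _ => 0
  | b + 1, w, t => nm B b w t + if w.getD (t * B + b) false then 2 ^ b else 0

theorem nm_succ (B b : ℕ) (w : Word) (t : ℕ) :
    nm B (b + 1) w t = nm B b w t + if w.getD (t * B + b) false then 2 ^ b else 0 := rfl

theorem nm_lt (B b : ℕ) (w : Word) (t : ℕ) : nm B b w t < 2 ^ b := by
  induction b with
  | zero => simp [nm]
  | succ b ih =>
    rw [nm_succ, pow_succ]
    split <;> omega

theorem nm_bit (B b : ℕ) (w : Word) (t s : ℕ) :
    (nm B b w t).testBit s = (decide (s < b) && w.getD (t * B + s) false) := by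
  induction b with
  | zero => simp [nm]
  | succ b ih =>
    have h1 : nm B (b + 1) w t = 2 ^ b * (if w.getD (t * B + b) false then 1 else 0) +
        nm B b w t := by
      rw [nm_succ]
      split <;> ring
    rw [h1, Nat.testBit_two_pow_mul_add _ (nm_lt B b w t)]
    rcases lt_trichotomy s b with h | h | h
    · rw [if_pos h, ih]
      have h2 : s < b + 1 := by omega
      simp only [h, h2]
    · subst h
      rw [if_neg (lt_irrefl s), Nat.sub_self]
      have h2 : s < s + 1 := by omega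
      simp only [h2, decide_true, Bool.true_and]
      rcases w.getD (t * B + s) false <;> simp
    · have h2 : ¬ s < b := by omega
      have h3 : ¬ s < b + 1 := by omega
      rw [if_neg h2]
      simp only [h3, decide_false, Bool.false_and]
      obtain ⟨e, he⟩ : ∃ e, s - b = e + 1 := ⟨s - b - 1, by omega⟩
      rw [he]
      rcases w.getD (t * B + b) false <;> simp [Nat.testBit_succ]

/-- the number in the block `t` -/
def nv (B : ℕ) (w : Word) (t : ℕ) : ℕ := nm B B w t

theorem nv_eq {B : ℕ} {w : Word} {t a : ℕ} (ha : a < 2 ^ B)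
    (h : ∀ s < B, w.getD (t * B + s) false = a.testBit s) : nv B w t = a := by
  apply Nat.eq_of_testBit_eq
  intro s
  unfold nv
  rw [nm_bit]
  by_cases hs : s < B
  · simp only [hs, decide_true, Bool.true_and]
    exact h s hs
  · simp only [hs, decide_false, Bool.false_and]
    exact (Nat.testBit_lt_two_pow (lt_of_lt_of_le ha
      (Nat.pow_le_pow_right (by norm_num) (not_lt.1 hs)))).symm

/-- the binary digits of a number -/
def bts (B a : ℕ) : Word := (List.range B).map fun s => a.testBit s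

theorem len_bts (B a : ℕ) : (bts B a).length = B := by simp [bts]

theorem getD_bts {B a s : ℕ} (hs : s < B) : (bts B a).getD s false = a.testBit s := by
  have h : s < (bts B a).length := by rw [len_bts]; exact hs
  rw [List.getD_eq_getElem _ _ h]
  simp [bts]

/-- a word of blocks -/
def fl (B m : ℕ) (v : Fin m → ℕ) : Word := (List.finRange m).flatMap fun r => bts B (v r)

theorem fl_succ (B m : ℕ) (v : Fin (m + 1) → ℕ) :
    fl B (m + 1) v = bts B (v 0) ++ fl B m (fun r => v r.succ) := by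
  unfold fl
  rw [List.finRange_succ, List.flatMap_cons, List.flatMap_map]

theorem len_fl (B m : ℕ) (v : Fin m → ℕ) : (fl B m v).length = m * B := by
  induction m with
  | zero => simp [fl]
  | succ m ih =>
    rw [fl_succ, List.length_append, ih, len_bts]
    ring

theorem getD_fl (B m : ℕ) (v : Fin m → ℕ) (t s : ℕ) (ht : t < m) (hs : s < B) :
    (fl B m v).getD (t * B + s) false = (v ⟨t, ht⟩).testBit s := by
  induction m generalizing t with
  | zero => omega
  | succ m ih =>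
    rw [fl_succ]
    rcases t with _ | t
    · rw [Nat.zero_mul, zero_add, List.getD_append _ _ _ _ (by rw [len_bts]; exact hs),
        getD_bts hs]
      rfl
    · have h1 : (t + 1) * B + s = B + (t * B + s) := by ring
      rw [h1, List.getD_append_right _ _ _ _ (by rw [len_bts]; omega), len_bts,
        Nat.add_sub_cancel_left, ih _ t (by omega)]
      rfl

/-- words are the words of their blocks -/
theorem eq_fl (B m : ℕ) (w : Word) (o : ℕ) (h : (o + m) * B ≤ w.length) :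
    (w.drop (o * B)).take (m * B) = fl B m (fun r => nv B w (o + r)) := by
  induction m generalizing o with
  | zero => simp [fl]
  | succ m ih =>
    have h1 : (m + 1) * B = B + m * B := by ring
    have h2 : o * B + B = (o + 1) * B := by ring
    have h3 : (o + 1 + m) * B ≤ w.length := by
      have : o + 1 + m = o + (m + 1) := by ring
      rw [this]; exact h
    have h4 : o * B + B ≤ w.length := by
      rw [h2]
      exact le_trans (Nat.mul_le_mul_right _ (by omega)) h3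
    rw [h1, List.take_add, List.drop_drop, h2, ih (o + 1) h3, fl_succ]
    have h5 : (w.drop (o * B)).take B = bts B (nv B w (o + (0 : Fin (m + 1)).val)) := by
      apply List.ext_getElem
      · rw [len_bts, List.length_take, List.length_drop]
        omega
      intro s hs1 hs2
      have hs : s < B := by rw [len_bts] at hs2; exact hs2
      rw [List.getElem_take, List.getElem_drop]
      have h6 : (bts B (nv B w (o + (0 : Fin (m + 1)).val)))[s] =
          (nv B w (o + (0 : Fin (m + 1)).val)).testBit s := by simp [bts]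
      rw [h6]
      unfold nv
      rw [nm_bit]
      simp only [hs, decide_true, Bool.true_and, Fin.val_zero, add_zero]
      rw [List.getD_eq_getElem _ _ (by omega)]
    rw [h5]
    congr 1
    congr 1
    funext r
    have h6 : o + 1 + (r : ℕ) = o + (r.succ : ℕ) := by rw [Fin.val_succ]; ring
    rw [h6]

/-! ### The predicate -/

section pred

variable (p B N n : ℕ) (x y : Word)

/-- a product of the sum -/
def trm (i j k a b c : ℕ) : ℕ :=
  nv B y (i * N + a) * nv B y ((n + j) * N + (n + b)) *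
    nv B y ((2 * n + k) * N + (2 * n + c)) * nv B x ((a * n + b) * n + c)

def c1 (i j k a b : ℕ) : ℕ := ∑ c ∈ Finset.range n, trm B N n x y i j k a b c

def c2 (i j k a : ℕ) : ℕ := ∑ b ∈ Finset.range n, c1 B N n x y i j k a b

def c3 (i j k : ℕ) : ℕ := ∑ a ∈ Finset.range n, c2 B N n x y i j k a

def okE (i j k : ℕ) : Bool :=
  decide (c3 B N n x y i j k % p = nv B x (n ^ 3 + ((i * n + j) * n + k)))

def okB (i j : ℕ) : Bool := decide (COS.blk n i = COS.blk n j) || decide (nv B y (i * N + j) = 0)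

def okB1 (i : ℕ) : Bool := decide (∀ j < N, okB B N n y i j = true)

def okE1 (i j : ℕ) : Bool := decide (∀ k < n, okE p B N n x y i j k = true)

def okE2 (i : ℕ) : Bool := decide (∀ j < n, okE1 p B N n x y i j = true)

def okX : Bool := decide (∀ t < 2 * n ^ 3, decide (nv B x t < p) = true)

def okN : Bool :=
  decide (x.length = 2 * n ^ 3 * B) && okX p B n x && decide (∀ i < N, okB1 B N n y i = true) &&
    decide (∀ i < n, okE2 p B N n x y i = true)

def tmpV : Bool :=
  decide (∃ n < x.length + 1, okN p B (3 * x.length) n x y = true)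

end pred

/-! ### The machine -/

section machine

variable {m p B : ℕ} {N n i j k a b c : (Fin m → List K) → ℕ} {x y : (Fin m → List K) → Word}

theorem nmF (B b : ℕ) {t : (Fin m → List K) → ℕ} (hx : FPW m x) (ht : FPN m t) :
    FPN m (fun ρ => nm B b (x ρ) (t ρ)) := by
  induction b with
  | zero => exact FPN.const 0
  | succ b ih =>
    exact FPN.add ih (FPN.ite (FPW.getD hx (FPN.add (FPN.mul ht (FPN.const B)) (FPN.const b)))
      (FPN.const (2 ^ b)) (FPN.const 0))

theorem nvF {t : (Fin m → List K) → ℕ} (hx : FPW m x) (ht : FPN m t) :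
    FPN m (fun ρ => nv B (x ρ) (t ρ)) := nmF B B hx ht

theorem trmF (hN : FPN m N) (hn : FPN m n) (hx : FPW m x) (hy : FPW m y) (hi : FPN m i)
    (hj : FPN m j) (hk : FPN m k) (ha : FPN m a) (hb : FPN m b) (hc : FPN m c) :
    FPN m (fun ρ => trm B (N ρ) (n ρ) (x ρ) (y ρ) (i ρ) (j ρ) (k ρ) (a ρ) (b ρ) (c ρ)) := by
  have h2 := FPN.mul (FPN.const 2) hn
  exact FPN.mul (FPN.mul (FPN.mul (nvF hy (FPN.add (FPN.mul hi hN) ha))
    (nvF hy (FPN.add (FPN.mul (FPN.add hn hj) hN) (FPN.add hn hb))))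
    (nvF hy (FPN.add (FPN.mul (FPN.add h2 hk) hN) (FPN.add h2 hc))))
    (nvF hx (FPN.add (FPN.mul (FPN.add (FPN.mul ha hn) hb) hn) hc))

theorem c1F (hN : FPN m N) (hn : FPN m n) (hx : FPW m x) (hy : FPW m y) (hi : FPN m i)
    (hj : FPN m j) (hk : FPN m k) (ha : FPN m a) (hb : FPN m b) :
    FPN m (fun ρ => c1 B (N ρ) (n ρ) (x ρ) (y ρ) (i ρ) (j ρ) (k ρ) (a ρ) (b ρ)) :=
  FPN.sum hn (f := fun c ρ => trm B (N ρ) (n ρ) (x ρ) (y ρ) (i ρ) (j ρ) (k ρ) (a ρ) (b ρ) c)
    (trmF (FPN.weak hN) (FPN.weak hn) (FPW.weak hx) (FPW.weak hy) (FPN.weak hi) (FPN.weak hj)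
      (FPN.weak hk) (FPN.weak ha) (FPN.weak hb) FPN.v0)

theorem c2F (hN : FPN m N) (hn : FPN m n) (hx : FPW m x) (hy : FPW m y) (hi : FPN m i)
    (hj : FPN m j) (hk : FPN m k) (ha : FPN m a) :
    FPN m (fun ρ => c2 B (N ρ) (n ρ) (x ρ) (y ρ) (i ρ) (j ρ) (k ρ) (a ρ)) :=
  FPN.sum hn (f := fun b ρ => c1 B (N ρ) (n ρ) (x ρ) (y ρ) (i ρ) (j ρ) (k ρ) (a ρ) b)
    (c1F (FPN.weak hN) (FPN.weak hn) (FPW.weak hx) (FPW.weak hy) (FPN.weak hi) (FPN.weak hj)
      (FPN.weak hk) (FPN.weak ha) FPN.v0)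

theorem c3F (hN : FPN m N) (hn : FPN m n) (hx : FPW m x) (hy : FPW m y) (hi : FPN m i)
    (hj : FPN m j) (hk : FPN m k) :
    FPN m (fun ρ => c3 B (N ρ) (n ρ) (x ρ) (y ρ) (i ρ) (j ρ) (k ρ)) :=
  FPN.sum hn (f := fun a ρ => c2 B (N ρ) (n ρ) (x ρ) (y ρ) (i ρ) (j ρ) (k ρ) a)
    (c2F (FPN.weak hN) (FPN.weak hn) (FPW.weak hx) (FPW.weak hy) (FPN.weak hi) (FPN.weak hj)
      (FPN.weak hk) FPN.v0)

theorem okEF (hN : FPN m N) (hn : FPN m n) (hx : FPW m x) (hy : FPW m y) (hi : FPN m i)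
    (hj : FPN m j) (hk : FPN m k) :
    FPB m (fun ρ => okE p B (N ρ) (n ρ) (x ρ) (y ρ) (i ρ) (j ρ) (k ρ)) :=
  FPB.eqN (FPN.mod (c3F hN hn hx hy hi hj hk) (FPN.const p))
    (nvF hx (FPN.add (FPN.pow hn 3) (FPN.add (FPN.mul (FPN.add (FPN.mul hi hn) hj) hn) hk)))

theorem blkF (hn : FPN m n) (hi : FPN m i) : FPN m (fun ρ => COS.blk (n ρ) (i ρ)) := by
  refine FPN.congr (FPN.ite (FPB.ltN hi hn) (FPN.const 0)
    (FPN.ite (FPB.ltN hi (FPN.mul (FPN.const 2) hn)) (FPN.const 1)
      (FPN.ite (FPB.ltN hi (FPN.mul (FPN.const 3) hn)) (FPN.const 2) (FPN.const 3)))) fun ρ => ?_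
  unfold COS.blk
  simp only [decide_eq_true_eq]

theorem okBF (hN : FPN m N) (hn : FPN m n) (hy : FPW m y) (hi : FPN m i) (hj : FPN m j) :
    FPB m (fun ρ => okB B (N ρ) (n ρ) (y ρ) (i ρ) (j ρ)) :=
  FPB.or (FPB.eqN (blkF hn hi) (blkF hn hj))
    (FPB.eqN (nvF hy (FPN.add (FPN.mul hi hN) hj)) (FPN.const 0))

theorem okB1F (hN : FPN m N) (hn : FPN m n) (hy : FPW m y) (hi : FPN m i) :
    FPB m (fun ρ => okB1 B (N ρ) (n ρ) (y ρ) (i ρ)) :=
  FPB.all hN (b := fun j ρ => okB B (N ρ) (n ρ) (y ρ) (i ρ) j)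
    (okBF (FPN.weak hN) (FPN.weak hn) (FPW.weak hy) (FPN.weak hi) FPN.v0)

theorem okE1F (hN : FPN m N) (hn : FPN m n) (hx : FPW m x) (hy : FPW m y) (hi : FPN m i)
    (hj : FPN m j) : FPB m (fun ρ => okE1 p B (N ρ) (n ρ) (x ρ) (y ρ) (i ρ) (j ρ)) :=
  FPB.all hn (b := fun k ρ => okE p B (N ρ) (n ρ) (x ρ) (y ρ) (i ρ) (j ρ) k)
    (okEF (FPN.weak hN) (FPN.weak hn) (FPW.weak hx) (FPW.weak hy) (FPN.weak hi) (FPN.weak hj)
      FPN.v0)

theorem okE2F (hN : FPN m N) (hn : FPN m n) (hx : FPW m x) (hy : FPW m y) (hi : FPN m i) :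
    FPB m (fun ρ => okE2 p B (N ρ) (n ρ) (x ρ) (y ρ) (i ρ)) :=
  FPB.all hn (b := fun j ρ => okE1 p B (N ρ) (n ρ) (x ρ) (y ρ) (i ρ) j)
    (okE1F (FPN.weak hN) (FPN.weak hn) (FPW.weak hx) (FPW.weak hy) (FPN.weak hi) FPN.v0)

theorem okXF (hn : FPN m n) (hx : FPW m x) : FPB m (fun ρ => okX p B (n ρ) (x ρ)) :=
  FPB.all (FPN.mul (FPN.const 2) (FPN.pow hn 3)) (b := fun t ρ => decide (nv B (x ρ) t < p))
    (FPB.ltN (nvF (FPW.weak hx) FPN.v0) (FPN.const p))

theorem okNF (hN : FPN m N) (hn : FPN m n) (hx : FPW m x) (hy : FPW m y) :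
    FPB m (fun ρ => okN p B (N ρ) (n ρ) (x ρ) (y ρ)) :=
  FPB.and (FPB.and (FPB.and (FPB.eqN (FPW.len hx)
    (FPN.mul (FPN.mul (FPN.const 2) (FPN.pow hn 3)) (FPN.const B))) (okXF hn hx))
    (FPB.all hN (b := fun i ρ => okB1 B (N ρ) (n ρ) (y ρ) i)
      (okB1F (FPN.weak hN) (FPN.weak hn) (FPW.weak hy) FPN.v0)))
    (FPB.all hn (b := fun i ρ => okE2 p B (N ρ) (n ρ) (x ρ) (y ρ) i)
      (okE2F (FPN.weak hN) (FPN.weak hn) (FPW.weak hx) (FPW.weak hy) FPN.v0))

theorem tmpF (hx : FPW m x) (hy : FPW m y) : FPB m (fun ρ => tmpV p B (x ρ) (y ρ)) :=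
  FPB.exists (FPN.add (FPW.len hx) (FPN.const 1))
    (b := fun n ρ => okN p B (3 * (x ρ).length) n (x ρ) (y ρ))
    (okNF (FPN.mul (FPN.const 3) (FPW.len (FPW.weak hx))) FPN.v0 (FPW.weak hx) (FPW.weak hy))

end machine

/-! ### Correctness -/

section corr

variable {p : ℕ}

theorem lt_two_pow_db {a : ℕ} (ha : a < p) : a < 2 ^ db p := by
  have h := Nat.lt_size_self (p - 1)
  show a < 2 ^ Nat.size (p - 1)
  omega

theorem tcod_fl (n : ℕ) (T : Fin n → Fin n → Fin n → ZMod p) :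
    tcod p n T = fl (db p) (n * n * n)
      (fun r => (T r.divNat.divNat r.divNat.modNat r.modNat).val) := rfl

theorem encP_fl (hp : p.Prime) (N : ℕ) (M : Matrix (Fin N) (Fin N) (ZMod (p ^ 1))) :
    encP p 1 N M = fl (db p) (N * N) (fun r => (M r.divNat r.modNat).val) := by
  have : NeZero (p ^ 1) := ⟨by rw [pow_one]; exact hp.ne_zero⟩
  unfold encP fl
  congr 1
  funext r
  unfold cod bts
  rw [List.range_one, List.flatMap_singleton, pow_zero, Nat.div_one, Nat.mod_eq_of_lt]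
  exact lt_of_lt_of_eq (ZMod.val_lt (M r.divNat r.modNat)) (pow_one p)

theorem nv_enc (hp : p.Prime) {N : ℕ} (M : Matrix (Fin N) (Fin N) (ZMod (p ^ 1))) {i j : ℕ}
    (hi : i < N) (hj : j < N) :
    nv (db p) (encP p 1 N M) (i * N + j) = (M ⟨i, hi⟩ ⟨j, hj⟩).val := by
  have : NeZero (p ^ 1) := ⟨by rw [pow_one]; exact hp.ne_zero⟩
  have hv := lt_of_lt_of_eq (ZMod.val_lt (M ⟨i, hi⟩ ⟨j, hj⟩)) (pow_one p)
  refine nv_eq (lt_two_pow_db hv) fun s hs => ?_
  have h := COS.H13.pos_lt hi hj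
  rw [encP_fl hp, getD_fl _ _ _ _ _ h hs]
  have h1 : Fin.divNat (⟨i * N + j, h⟩ : Fin (N * N)) = ⟨i, hi⟩ := Fin.ext (COS.H13.div_eq hj)
  have h2 : Fin.modNat (⟨i * N + j, h⟩ : Fin (N * N)) = ⟨j, hj⟩ := Fin.ext (COS.H13.mod_eq hj)
  rw [h1, h2]

theorem pos3 {n : ℕ} (a b c : Fin n) : ((a : ℕ) * n + b) * n + c < n * n * n := by
  have h1 := COS.H13.pos_lt a.2 b.2
  calc ((a : ℕ) * n + b) * n + c < ((a : ℕ) * n + b) * n + n := by have := c.2; omega
    _ = ((a : ℕ) * n + b + 1) * n := by ring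
    _ ≤ n * n * n := Nat.mul_le_mul_right n h1

theorem idx3 {n : ℕ} (a b c : Fin n) (h : ((a : ℕ) * n + b) * n + c < n * n * n)
    (T : Fin n → Fin n → Fin n → ZMod p) :
    T (Fin.divNat (Fin.divNat (⟨((a : ℕ) * n + b) * n + c, h⟩ : Fin (n * n * n))))
      (Fin.modNat (Fin.divNat (⟨((a : ℕ) * n + b) * n + c, h⟩ : Fin (n * n * n))))
      (Fin.modNat (⟨((a : ℕ) * n + b) * n + c, h⟩ : Fin (n * n * n))) = T a b c := by
  have h1 : Fin.divNat (⟨((a : ℕ) * n + b) * n + c, h⟩ : Fin (n * n * n)) =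
      ⟨(a : ℕ) * n + b, COS.H13.pos_lt a.2 b.2⟩ := Fin.ext (COS.H13.div_eq c.2)
  have h2 : Fin.modNat (⟨((a : ℕ) * n + b) * n + c, h⟩ : Fin (n * n * n)) = c :=
    Fin.ext (COS.H13.mod_eq c.2)
  have h3 : Fin.divNat (⟨(a : ℕ) * n + b, COS.H13.pos_lt a.2 b.2⟩ : Fin (n * n)) = a :=
    Fin.ext (COS.H13.div_eq b.2)
  have h4 : Fin.modNat (⟨(a : ℕ) * n + b, COS.H13.pos_lt a.2 b.2⟩ : Fin (n * n)) = b :=
    Fin.ext (COS.H13.mod_eq b.2)
  rw [h2, h1, h3, h4]

theorem len_tcod (n : ℕ) (T : Fin n → Fin n → Fin n → ZMod p) :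
    (tcod p n T).length = n ^ 3 * db p := by
  rw [tcod_fl, len_fl]
  ring

theorem nv_fst (hp : p.Prime) {n : ℕ} (T T' : Fin n → Fin n → Fin n → ZMod p) {t : ℕ}
    (ht : t < n * n * n) : nv (db p) (tcod p n T ++ tcod p n T') t =
      (T (Fin.divNat (Fin.divNat (⟨t, ht⟩ : Fin (n * n * n))))
        (Fin.modNat (Fin.divNat (⟨t, ht⟩ : Fin (n * n * n))))
        (Fin.modNat (⟨t, ht⟩ : Fin (n * n * n)))).val := by
  have : NeZero p := ⟨hp.ne_zero⟩
  refine nv_eq (lt_two_pow_db (ZMod.val_lt _)) fun s hs => ?_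
  have h : t * db p + s < (tcod p n T).length := by
    rw [tcod_fl, len_fl]
    calc t * db p + s < t * db p + db p := by omega
      _ = (t + 1) * db p := by ring
      _ ≤ _ := Nat.mul_le_mul_right _ ht
  rw [List.getD_append _ _ _ _ h, tcod_fl, getD_fl _ _ _ _ _ ht hs]

theorem nv_snd (hp : p.Prime) {n : ℕ} (T T' : Fin n → Fin n → Fin n → ZMod p) {t : ℕ}
    (ht : t < n * n * n) : nv (db p) (tcod p n T ++ tcod p n T') (n ^ 3 + t) =
      (T' (Fin.divNat (Fin.divNat (⟨t, ht⟩ : Fin (n * n * n))))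
        (Fin.modNat (Fin.divNat (⟨t, ht⟩ : Fin (n * n * n))))
        (Fin.modNat (⟨t, ht⟩ : Fin (n * n * n)))).val := by
  have : NeZero p := ⟨hp.ne_zero⟩
  refine nv_eq (lt_two_pow_db (ZMod.val_lt _)) fun s hs => ?_
  have h : (n ^ 3 + t) * db p + s = (tcod p n T).length + (t * db p + s) := by
    rw [len_tcod]
    ring
  rw [h, List.getD_append_right _ _ _ _ (by omega), Nat.add_sub_cancel_left, tcod_fl,
    getD_fl _ _ _ _ _ ht hs]

theorem cast_e (hp : p.Prime) (m : ZMod (p ^ 1)) :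
    ZMod.ringEquivCongr (pow_one p) m = ((m.val : ℕ) : ZMod p) := by
  have : NeZero p := ⟨hp.ne_zero⟩
  rw [← ZMod.ringEquivCongr_val (pow_one p) m, ZMod.natCast_zmod_val]

theorem enR_nv (hp : p.Prime) {N : ℕ} (M : Matrix (Fin N) (Fin N) (ZMod (p ^ 1))) {i j : ℕ}
    (hi : i < N) (hj : j < N) : enR (M.map (ZMod.ringEquivCongr (pow_one p))) i j =
      ((nv (db p) (encP p 1 N M) (i * N + j) : ℕ) : ZMod p) := by
  unfold enR
  rw [dif_pos ⟨hi, hj⟩, nv_enc hp M hi hj, Matrix.map_apply, cast_e hp]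

theorem db_pos (hp : p.Prime) : 0 < db p := by
  have := hp.two_le
  exact Nat.size_pos.2 (by omega)

theorem len_x {n : ℕ} {T T' : Fin n → Fin n → Fin n → ZMod p} :
    (tcod p n T ++ tcod p n T').length = 2 * n ^ 3 * db p := by
  rw [List.length_append, len_tcod, len_tcod]
  ring

theorem n_le (hp : p.Prime) {n l : ℕ} (h : l = 2 * n ^ 3 * db p) : n ≤ l := by
  have h1 : n ≤ n ^ 3 := Nat.le_self_pow (by norm_num) n
  have h2 : 2 * n ^ 3 * 1 ≤ 2 * n ^ 3 * db p := Nat.mul_le_mul_left _ (db_pos hp)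
  omega

theorem okE_iff (hp : p.Prime) {n N : ℕ} (hN : 3 * n ≤ N)
    (T T' : Fin n → Fin n → Fin n → ZMod p) (M : Matrix (Fin N) (Fin N) (ZMod (p ^ 1)))
    (i j k : Fin n) :
    okE p (db p) N n (tcod p n T ++ tcod p n T') (encP p 1 N M) i j k = true ↔
      ∑ a : Fin n, ∑ b : Fin n, ∑ c : Fin n,
        enR (M.map (ZMod.ringEquivCongr (pow_one p))) i a *
          enR (M.map (ZMod.ringEquivCongr (pow_one p))) (n + j) (n + b) *
          enR (M.map (ZMod.ringEquivCongr (pow_one p))) (2 * n + k) (2 * n + c) * T a b c =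
            T' i j k := by
  have : NeZero p := ⟨hp.ne_zero⟩
  have hs : ∑ a : Fin n, ∑ b : Fin n, ∑ c : Fin n,
        enR (M.map (ZMod.ringEquivCongr (pow_one p))) i a *
          enR (M.map (ZMod.ringEquivCongr (pow_one p))) (n + j) (n + b) *
          enR (M.map (ZMod.ringEquivCongr (pow_one p))) (2 * n + k) (2 * n + c) * T a b c =
      ((c3 (db p) N n (tcod p n T ++ tcod p n T') (encP p 1 N M) i j k : ℕ) : ZMod p) := by
    unfold c3 c2 c1
    rw [Nat.cast_sum, Finset.sum_range]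
    refine Finset.sum_congr rfl fun a _ => ?_
    rw [Nat.cast_sum, Finset.sum_range]
    refine Finset.sum_congr rfl fun b _ => ?_
    rw [Nat.cast_sum, Finset.sum_range]
    refine Finset.sum_congr rfl fun c _ => ?_
    have hi := i.2
    have hj := j.2
    have hk := k.2
    have ha := a.2
    have hb := b.2
    have hc := c.2
    unfold trm
    rw [enR_nv hp M (by omega) (by omega), enR_nv hp M (by omega) (by omega),
      enR_nv hp M (by omega) (by omega), nv_fst hp T T' (pos3 a b c), idx3 a b c (pos3 a b c) T]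
    push_cast
    rw [ZMod.natCast_zmod_val]
  rw [hs]
  unfold okE
  rw [decide_eq_true_iff, nv_snd hp T T' (pos3 i j k), idx3 i j k (pos3 i j k) T']
  constructor
  · intro h
    have h1 := congrArg (fun z : ℕ => (z : ZMod p)) h
    simp only [ZMod.natCast_mod, ZMod.natCast_zmod_val] at h1
    exact h1
  · intro h
    rw [← h, ZMod.val_natCast]

theorem okN_iff (hp : p.Prime) {n N : ℕ} (hN : 3 * n ≤ N)
    (T T' : Fin n → Fin n → Fin n → ZMod p) (M : Matrix (Fin N) (Fin N) (ZMod (p ^ 1))) :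
    okN p (db p) N n (tcod p n T ++ tcod p n T') (encP p 1 N M) = true ↔
      BlkSolR n N T T' (M.map (ZMod.ringEquivCongr (pow_one p))) := by
  have : NeZero p := ⟨hp.ne_zero⟩
  have : NeZero (p ^ 1) := ⟨by rw [pow_one]; exact hp.ne_zero⟩
  have hX : okX p (db p) n (tcod p n T ++ tcod p n T') = true := by
    unfold okX
    rw [decide_eq_true_iff]
    intro t ht
    rw [decide_eq_true_iff]
    have h3 : n ^ 3 = n * n * n := by ring
    by_cases h : t < n * n * n
    · rw [nv_fst hp T T' h]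
      exact ZMod.val_lt _
    · obtain ⟨u, rfl⟩ : ∃ u, t = n ^ 3 + u := ⟨t - n ^ 3, by omega⟩
      rw [nv_snd hp T T' (by omega : u < n * n * n)]
      exact ZMod.val_lt _
  unfold okN okE2 okE1 okB1 BlkSolR
  simp only [Bool.and_eq_true, decide_eq_true_iff, hX, len_x, true_and]
  have hE : (∀ i < n, ∀ j < n, ∀ k < n, okE p (db p) N n (tcod p n T ++ tcod p n T')
      (encP p 1 N M) i j k = true) ↔ ∀ i j k : Fin n, ∑ a : Fin n, ∑ b : Fin n, ∑ c : Fin n,
        enR (M.map (ZMod.ringEquivCongr (pow_one p))) i a *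
          enR (M.map (ZMod.ringEquivCongr (pow_one p))) (n + j) (n + b) *
          enR (M.map (ZMod.ringEquivCongr (pow_one p))) (2 * n + k) (2 * n + c) * T a b c =
            T' i j k := by
    constructor
    · intro h i j k
      exact (okE_iff hp hN T T' M i j k).1 (h i i.2 j j.2 k k.2)
    · intro h i hi j hj k hk
      exact (okE_iff hp hN T T' M ⟨i, hi⟩ ⟨j, hj⟩ ⟨k, hk⟩).2 (h ⟨i, hi⟩ ⟨j, hj⟩ ⟨k, hk⟩)
  have hB : (∀ i < N, ∀ j < N, okB (db p) N n (encP p 1 N M) i j = true) ↔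
      ∀ i j : Fin N, COS.blk n i ≠ COS.blk n j →
        (M.map (ZMod.ringEquivCongr (pow_one p))) i j = 0 := by
    have h0 : ∀ i j : Fin N, (okB (db p) N n (encP p 1 N M) i j = true ↔
        (COS.blk n i ≠ COS.blk n j → (M.map (ZMod.ringEquivCongr (pow_one p))) i j = 0)) := by
      intro i j
      unfold okB
      rw [Bool.or_eq_true, decide_eq_true_iff, decide_eq_true_iff, nv_enc hp M i.2 j.2,
        Matrix.map_apply, ZMod.val_eq_zero, map_eq_zero_iff _ (RingEquiv.injective _)]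
      exact ⟨fun h h' => h.resolve_left h', fun h => by
        by_cases h' : COS.blk n i = COS.blk n j
        · exact Or.inl h'
        · exact Or.inr (h h')⟩
    constructor
    · intro h i j
      exact (h0 i j).1 (h i i.2 j j.2)
    · intro h i hi j hj
      exact (h0 ⟨i, hi⟩ ⟨j, hj⟩).2 (h ⟨i, hi⟩ ⟨j, hj⟩)
  exact and_congr hB hE

theorem ex_tcod (hp : p.Prime) {n N : ℕ} {x y : Word}
    (h : okN p (db p) N n x y = true) :
    ∃ T T' : Fin n → Fin n → Fin n → ZMod p, x = tcod p n T ++ tcod p n T' := by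
  have : NeZero p := ⟨hp.ne_zero⟩
  unfold okN at h
  rw [Bool.and_eq_true, Bool.and_eq_true, Bool.and_eq_true, decide_eq_true_iff] at h
  have hl := h.1.1.1
  have hX := h.1.1.2
  unfold okX at hX
  rw [decide_eq_true_iff] at hX
  have hX' : ∀ t < 2 * n ^ 3, nv (db p) x t < p := fun t ht => by
    have := hX t ht
    rwa [decide_eq_true_iff] at this
  have h3 : n ^ 3 = n * n * n := by ring
  have hval : ∀ o, o + n * n * n ≤ 2 * n ^ 3 → fl (db p) (n * n * n)
      (fun r => nv (db p) x (o + r)) = tcod p n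
        (fun a b c => ((nv (db p) x (o + (((a : ℕ) * n + b) * n + c)) : ℕ) : ZMod p)) := by
    intro o ho
    rw [tcod_fl]
    congr 1
    funext r
    have h4 : ((r.divNat.divNat : ℕ) * n + (r.divNat.modNat : ℕ)) * n + (r.modNat : ℕ) = r := by
      show ((r : ℕ) / n / n * n + (r : ℕ) / n % n) * n + (r : ℕ) % n = r
      rw [Nat.div_add_mod', Nat.div_add_mod']
    rw [h4, ZMod.val_natCast, Nat.mod_eq_of_lt]
    exact hX' _ (by have := r.2; omega)
  have e1 := eq_fl (db p) (n * n * n) x 0 (by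
    rw [hl]
    exact Nat.mul_le_mul_right _ (by omega))
  have e2 := eq_fl (db p) (n * n * n) x (n * n * n) (by
    rw [hl]
    exact Nat.mul_le_mul_right _ (by omega))
  refine ⟨fun a b c => ((nv (db p) x (0 + (((a : ℕ) * n + b) * n + c)) : ℕ) : ZMod p),
    fun a b c => ((nv (db p) x (n * n * n + (((a : ℕ) * n + b) * n + c)) : ℕ) : ZMod p), ?_⟩
  rw [← hval 0 (by omega), ← hval (n * n * n) (by omega), ← e1, ← e2, Nat.zero_mul,
    List.drop_zero]
  have h5 : (x.drop (n * n * n * db p)).take (n * n * n * db p) = x.drop (n * n * n * db p) := by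
    apply List.take_of_length_le
    rw [List.length_drop, hl, h3]
    have : 2 * (n * n * n) * db p = n * n * n * db p + n * n * n * db p := by ring
    omega
  rw [h5, List.take_append_drop]

end corr

/-- **TMP** -/
theorem tmp : TmpStmt := by
  intro p hp
  refine ⟨fun z => tmpV p (db p) z.1 z.2, polyPair_of' fun _ _ _ hA hB => tmpF hA hB, ?_⟩
  intro x M
  show tmpV p (db p) x (encP p 1 (3 * x.length) M) = true ↔ _
  unfold tmpV
  rw [decide_eq_true_iff]
  constructor
  · rintro ⟨n, hn, h⟩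
    obtain ⟨T, T', hT⟩ := ex_tcod hp h
    subst hT
    exact ⟨n, T, T', rfl, (okN_iff hp (by omega) T T' M).1 h⟩
  · rintro ⟨n, T, T', hT, h⟩
    subst hT
    have hn : n ≤ (tcod p n T ++ tcod p n T').length := n_le hp len_x
    exact ⟨n, by omega, (okN_iff hp (by omega) T T' M).2 h⟩

end Pool.Agent.COSB.H94
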